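import Pool.Agent.TH119.S2.Ins
import Pool.Agent.W544.PG.Final

/-!
# The theorem on graded Lie algebras with many positive operators
-/

open Matrix Finset Module
open scoped ComplexOrder

namespace Pool.Agent.TH119.S2

open Pool.Agent.W544.PG Pool.Agent.W701.PG Pool.Agent

/-- The numerical condition. -/
def Cnd (p q t : ℕ) : Prop := 2 * p ^ 3 + 4 * p < (q - 2 * p) * t + q

theorem Cnd.lt {p q t : ℕ} (h : Cnd p q t) : 2 * p < q := by
  unfold Cnd at h
  by_contra h'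
  rw [Nat.sub_eq_zero_of_le (not_lt.1 h'), zero_mul] at h
  omega

theorem num2 {p q d0 a b κ t : ℕ} (hth : Cnd p q t)
    (hcas : q * (d0 + 2 * a + 2 * b) + (2 * p + q) ≤ (2 * p + q) * (d0 + a))
    (hd : d0 ≤ p ^ 2 + κ) (ht : t ≤ a + b) : 4 ≤ κ := by
  by_contra hκ
  have hκ' : κ ≤ 3 := by omega
  have hlt := hth.lt
  unfold Cnd at hth
  obtain ⟨r, rfl⟩ := Nat.exists_eq_add_of_lt hlt
  have hs : 2 * p + r + 1 - 2 * p = r + 1 := by omega
  rw [hs] at hth
  have h1 : (r + 1) * (a + b) + (2 * p + (2 * p + r + 1)) ≤ 2 * p * d0 := by nlinarith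
  have h2 : 2 * p * d0 ≤ 2 * p * (p ^ 2 + 3) := by
    apply Nat.mul_le_mul_left
    omega
  have h3 : (r + 1) * t ≤ (r + 1) * (a + b) := Nat.mul_le_mul_left _ ht
  nlinarith

theorem num3 {p q t k1 k0 a b : ℕ} (hp : 0 < p) (h1 : k1 * (2 * p + q) = p * p)
    (h0 : k0 * (2 * p + q) = p * q) (ha : a ≤ k1 * k0) (hb : b ≤ k1 * k1) (ht : t ≤ a + b) :
    ¬ Cnd p q t := by
  intro hc
  have hlt := hc.lt
  unfold Cnd at hc
  obtain ⟨r, rfl⟩ := Nat.exists_eq_add_of_lt hlt
  have hs : 2 * p + r + 1 - 2 * p = r + 1 := by omega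
  rw [hs] at hc
  obtain ⟨m, hm⟩ : ∃ m, m = r + 1 := ⟨_, rfl⟩
  have hr : 2 * p + r + 1 = 2 * p + m := by omega
  rw [← hm, hr] at hc
  rw [hr] at h1 h0
  obtain ⟨N, hN⟩ : ∃ N, N = 2 * p + (2 * p + m) := ⟨_, rfl⟩
  rw [← hN] at h1 h0
  have hN0 : 0 < N := by omega
  have hk1 : 1 ≤ k1 := by
    rcases Nat.eq_zero_or_pos k1 with h | h
    · rw [h, zero_mul] at h1
      have := Nat.mul_pos hp hp
      omega
    · exact h
  have hNp : N ≤ p * p := by
    rw [← h1]
    exact Nat.le_mul_of_pos_left N hk1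
  -- t N^2 ≤ p^3 (p + q)
  have e1 : t * (N * N) ≤ p * p * (p * (2 * p + m) + p * p) := by
    calc t * (N * N) ≤ (k1 * k0 + k1 * k1) * (N * N) := Nat.mul_le_mul_right _ (by omega)
      _ = (k1 * N) * (k0 * N + k1 * N) := by ring
      _ = p * p * (p * (2 * p + m) + p * p) := by rw [h1, h0]
  have e2 : m * (3 * p + m) ≤ N * N := by
    rw [hN]
    nlinarith
  have e3 : m * t * (N * N) ≤ p * p * p * (N * N) := by
    calc m * t * (N * N) = m * (t * (N * N)) := by ring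
      _ ≤ m * (p * p * (p * (2 * p + m) + p * p)) := Nat.mul_le_mul_left _ e1
      _ = p * p * p * (m * (3 * p + m)) := by ring
      _ ≤ p * p * p * (N * N) := Nat.mul_le_mul_left _ e2
  have e4 : m * t ≤ p * p * p := Nat.le_of_mul_le_mul_right e3 (Nat.mul_pos hN0 hN0)
  have e5 : 2 * p + m ≤ p * p := by omega
  have e6 : p * p ≤ p * p * p + 4 * p := by
    have : p * p ≤ p * p * p := Nat.le_mul_of_pos_right _ hp
    omega
  have e7 : 2 * p ^ 3 = 2 * (p * p * p) := by ring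
  omega

/-- The main theorem on graded Lie algebras of skew operators: if the part of positive degree is
large then the Lie algebra contains all skew operators. -/
theorem core2 (p q t : ℕ) (h : Submodule ℂ (Matrix (I p q) (I p q) ℂ)) (hp : 0 < p)
    (hc : Cnd p q t)
    (hskew : ∀ X ∈ h, Xᵀ * B0 p q + B0 p q * X = 0) (hstar : ∀ X ∈ h, Xᴴ ∈ h)
    (hlie : ∀ X ∈ h, ∀ Y ∈ h, X * Y - Y * X ∈ h) (hx0 : x0 p q ∈ h)
    (hcom : ∀ C, (∀ y ∈ h, y * y * y = y → (y * y).trace = 2 * p → C * y = y * C) →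
      ∃ c : ℂ, C = c • (1 : Matrix (I p q) (I p q) ℂ))
    (ht : ∀ G : Gr p q, G.alg = h → t ≤ finrank ℂ G.h1 + finrank ℂ G.h2)
    (Z : Matrix (I p q) (I p q) ℂ) (hZ : Zᵀ * B0 p q + B0 p q * Z = 0) : Z ∈ h := by
  have hexp : S_exp := W202.PG.exp
  have hdc : S_dc := W409.PG.dc hexp
  have hspan : S_span := W368.PG.span
  have hsimp : S_simp := W101.PG.simp hexp
  obtain ⟨G, hG⟩ := W216.PG.GRD.grd p q h hskew hstar hlie hx0
  have ht' := ht G hG
  have hIrr : G.Irr := by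
    intro C hC
    refine hcom C fun y hy _ _ => ?_
    rw [← hG] at hy
    exact com_span hC hy
  obtain ⟨hA, hB⟩ := W216.PG.irr p q G hp hIrr
  have hlt := hc.lt
  have hq : 0 < q := by omega
  have hd := W417.PG.dim p q G hB
  have hk : 4 ≤ finrank ℂ G.kk := num2 hc (W308.PG.cas p q G hp hIrr) hd.1 ht'
  obtain ⟨A, hAdm⟩ := W116.PG.adj p q G
  have hF := W338.PG.cen2 hspan p q G A hAdm hA hB (by omega)
  have hN := W507.PG.lg hexp hdc hspan hsimp p q G A hAdm hF hk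
  obtain ⟨n1, n2, n3, n4⟩ := W417.PG.nor p q G hIrr
  have hcard : Fintype.card (I p q) = 2 * p + q := by
    simp [I]
    ring
  have hxC : x0 p q ∈ com ((com G.ops1 : Submodule ℂ (Matrix (I p q) (I p q) ℂ)) :
      Set (Matrix (I p q) (I p q) ℂ)) :=
    fun s hs => (W82.PG.com1 p q G hp hq hA hB s hs).symm
  have hS : ∀ s ∈ com G.ops1, ∃ c : ℂ, s = c • (1 : Matrix (I p q) (I p q) ℂ) := by
    intro s hs
    refine hcom s fun y hy hy3 htr => ?_
    have hy' : y ∈ G.alg := by rw [hG]; exact hy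
    have hyB := skew_conj (hskew y hy)
    rcases der2 hexp hdc hspan (I p q) (com G.ops1) (B0 p q) y p n1 n2 (B0_sq p q) (B0_T p q)
      n4 (by rw [hcard]; omega) (by rw [hcard]; omega) hy3 htr hyB (n3 y hy') with h6 | h6
    · exact (h6 s hs).symm
    · exfalso
      have hy0 : y.trace = 0 := by
        have h1 := congrArg Matrix.trace hyB
        rw [Matrix.trace_mul_comm, ← mul_assoc, B0_sq, one_mul, Matrix.trace_transpose,
          Matrix.trace_neg] at h1
        have h2 : 2 * y.trace = 0 := by linear_combination h1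
        exact (mul_eq_zero.mp h2).resolve_left two_ne_zero
      obtain ⟨k1, k0, e1, e0, ea, eb⟩ := ins_bound hexp hspan hsimp G hp n1 n2 hxC n3 h6 hy3
        htr hy0
      exact num3 hp e1 e0 ea eb ht' hc
  have hcA : ∀ c ∈ com (A : Set (Matrix (Fin q) (Fin q) ℂ)),
      ∃ z : ℂ, c = z • (1 : Matrix (Fin q) (Fin q) ℂ) := by
    intro c hc
    obtain ⟨c₁, c₂, hcc⟩ := W570.PG.ext p q G A hp hq hAdm hA hB hN c hc
    obtain ⟨z, hz⟩ := hS _ hcc
    refine ⟨z, ?_⟩
    ext i j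
    have h7 := congrFun (congrFun hz (Sum.inr (Sum.inl i))) (Sum.inr (Sum.inl j))
    simpa [Matrix.one_apply] using h7
  have hkey : G.h1 = ⊤ := by
    refine W85.PG.top p q G hp hA hB (Or.inr ⟨hq, fun F hF a => hAdm.mod F hF a ?_⟩)
    refine hdc (Fin q) A hAdm.star a ?_
    intro c hc
    obtain ⟨z, rfl⟩ := hcA c hc
    simp
  rw [← hG]
  exact W85.PG.fin p q G hp (Or.inl hq) hkey Z hZ

end Pool.Agent.TH119.S2
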