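import Pool.Agent.TH119.S2.Der2
import Pool.Agent.W544.PG.Core

/-!
# A Galois conjugate of the grading element inside the factor

If the commutant `S` of the operators of degree `±1` contains an element `y` with `y^3 = y` and
`tr y^2 = 2 p` then the parts of degree one and two are small.
-/

open Matrix Finset Module
open scoped ComplexOrder

namespace Pool.Agent.TH119.S2

open Pool.Agent.W544.PG Pool.Agent.W701.PG

section gen
variable {ι : Type} [Fintype ι] [DecidableEq ι]

/-- The trace of an idempotent is its rank. -/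
theorem trace_idem' (P : Matrix ι ι ℂ) (h : P * P = P) :
    P.trace = (finrank ℂ (LinearMap.range (Matrix.toLin' P)) : ℂ) := by
  have h1 : IsIdempotentElem (Matrix.toLin' P) := by
    unfold IsIdempotentElem
    rw [Module.End.mul_eq_comp, ← Matrix.toLin'_mul, h]
  have h2 := (LinearMap.IsIdempotentElem.isProj_range _ h1).trace
  rw [← h2]
  simp

/-- Elements of the commutant which kill a nonzero element of a simple algebra vanish. -/
theorem kill (hsimp : S_simp) {S : Submodule ℂ (Matrix ι ι ℂ)} (hS : IsStar S) (hF : Factor S)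
    {C R : Matrix ι ι ℂ} (hC : C ∈ com (S : Set (Matrix ι ι ℂ))) (hR : R ∈ S) (hR0 : R ≠ 0)
    (h : C * R = 0) : C = 0 := by
  let J : Submodule ℂ (Matrix ι ι ℂ) :=
    { carrier := {s | s ∈ S ∧ C * s = 0}
      zero_mem' := ⟨S.zero_mem, by rw [mul_zero]⟩
      add_mem' := by
        rintro a b ⟨ha, ha'⟩ ⟨hb, hb'⟩
        exact ⟨S.add_mem ha hb, by rw [mul_add, ha', hb', add_zero]⟩
      smul_mem' := by
        rintro c a ⟨ha, ha'⟩
        exact ⟨S.smul_mem c ha, by rw [mul_smul_comm, ha', smul_zero]⟩ }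
  have hJ : J = S := by
    refine hsimp ι S J hS hF (fun a ha => ha.1) ?_ ?_
    · intro hb
      have : R ∈ J := ⟨hR, h⟩
      rw [hb] at this
      exact hR0 ((Submodule.mem_bot ℂ).1 this)
    · rintro a ha y ⟨hy, hy'⟩
      refine ⟨⟨hS.2.1 a ha y hy, ?_⟩, ⟨hS.2.1 y hy a ha, ?_⟩⟩
      · rw [← mul_assoc, (mem_com.1 hC) a ha, mul_assoc, hy', mul_zero]
      · rw [← mul_assoc, hy', zero_mul]
  have h1 : (1 : Matrix ι ι ℂ) ∈ J := by rw [hJ]; exact hS.1
  have h2 : C * 1 = 0 := h1.2
  rwa [mul_one] at h2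

/-- A space of operators commuting with a simple algebra. -/
theorem hom_bound (hsimp : S_simp) {S : Submodule ℂ (Matrix ι ι ℂ)} (hS : IsStar S)
    (hF : Factor S) {R A B : Matrix ι ι ℂ} (hR : R ∈ S) (hR0 : R ≠ 0)
    (hA : A ∈ com (S : Set (Matrix ι ι ℂ)))
    (M : Submodule ℂ (Matrix ι ι ℂ))
    (hM : ∀ C ∈ M, C ∈ com (S : Set (Matrix ι ι ℂ)) ∧ A * C = C ∧ C * B = C) :
    finrank ℂ M ≤ finrank ℂ (LinearMap.range (Matrix.toLin' (B * R))) *
      finrank ℂ (LinearMap.range (Matrix.toLin' (A * R))) := by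
  have key : ∀ C ∈ M, ∀ u ∈ LinearMap.range (Matrix.toLin' (B * R)),
      Matrix.toLin' C u ∈ LinearMap.range (Matrix.toLin' (A * R)) := by
    rintro C hC _ ⟨v, rfl⟩
    obtain ⟨h1, h2, h3⟩ := hM C hC
    refine ⟨C *ᵥ v, ?_⟩
    simp only [Matrix.toLin'_apply, Matrix.mulVec_mulVec]
    congr 1
    calc A * R * C = R * A * C := by rw [(mem_com.1 hA) R hR]
      _ = R * (A * C) := by rw [mul_assoc]
      _ = R * C := by rw [h2]
      _ = C * R := ((mem_com.1 h1) R hR).symm
      _ = (C * B) * R := by rw [h3]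
      _ = C * (B * R) := by rw [mul_assoc]
  let f : M →ₗ[ℂ] (LinearMap.range (Matrix.toLin' (B * R)) →ₗ[ℂ]
      LinearMap.range (Matrix.toLin' (A * R))) :=
    { toFun := fun C => ((Matrix.toLin' C.1).restrict (key C.1 C.2))
      map_add' := by
        intro C C'
        ext u : 2
        simp [LinearMap.restrict_apply]
      map_smul' := by
        intro c C
        ext u : 2
        simp [LinearMap.restrict_apply] }
  have hf : Function.Injective f := by
    rw [injective_iff_map_eq_zero]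
    rintro ⟨C, hC⟩ h
    obtain ⟨h1, h2, h3⟩ := hM C hC
    have h4 : C * R = 0 := by
      apply Matrix.toLin'.injective
      rw [map_zero]
      refine LinearMap.ext fun v => ?_
      have h5 : f ⟨C, hC⟩ ⟨_, ⟨v, rfl⟩⟩ = 0 := by rw [h]; rfl
      have h6 : Matrix.toLin' C (Matrix.toLin' (B * R) v) = 0 := congrArg Subtype.val h5
      rw [Matrix.toLin'_apply, Matrix.toLin'_apply, Matrix.mulVec_mulVec, ← mul_assoc, h3] at h6
      rw [Matrix.toLin'_apply, h6]
      rfl
    have h5 := kill hsimp hS hF h1 hR hR0 h4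
    exact Subtype.ext h5
  have h := LinearMap.finrank_le_finrank_of_injective hf
  rwa [Module.finrank_linearMap] at h

end gen

/-- projection to `V_1` -/
def Pp (p q : ℕ) : Matrix (I p q) (I p q) ℂ :=
  Matrix.diagonal (Sum.elim (fun _ => 1) (Sum.elim (fun _ => 0) (fun _ => 0)))

/-- projection to `V_0` -/
def Pz (p q : ℕ) : Matrix (I p q) (I p q) ℂ :=
  Matrix.diagonal (Sum.elim (fun _ => 0) (Sum.elim (fun _ => 1) (fun _ => 0)))

/-- projection to `V_(-1)` -/
def Pm (p q : ℕ) : Matrix (I p q) (I p q) ℂ :=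
  Matrix.diagonal (Sum.elim (fun _ => 0) (Sum.elim (fun _ => 0) (fun _ => 1)))

theorem Pp_eq (p q : ℕ) : Pp p q = (1 / 2 : ℂ) • (x0 p q * x0 p q + x0 p q) := by
  rw [x0_eq, Pp, Matrix.diagonal_mul_diagonal, Matrix.diagonal_add, ← Matrix.diagonal_smul]
  congr 1
  funext i
  rcases i with i | i | i <;> simp
  norm_num

theorem Pm_eq (p q : ℕ) : Pm p q = (1 / 2 : ℂ) • (x0 p q * x0 p q - x0 p q) := by
  rw [x0_eq, Pm, Matrix.diagonal_mul_diagonal, Matrix.diagonal_sub, ← Matrix.diagonal_smul]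
  congr 1
  funext i
  rcases i with i | i | i <;> simp
  norm_num

theorem Pz_eq (p q : ℕ) : Pz p q = 1 - x0 p q * x0 p q := by
  rw [x0_eq, Pz, Matrix.diagonal_mul_diagonal, ← Matrix.diagonal_one, Matrix.diagonal_sub]
  congr 1
  funext i
  rcases i with i | i | i <;> simp

theorem Pp_sq (p q : ℕ) : Pp p q * Pp p q = Pp p q := by
  rw [Pp, Matrix.diagonal_mul_diagonal]
  congr 1
  funext i
  rcases i with i | i | i <;> simp

theorem Pz_sq (p q : ℕ) : Pz p q * Pz p q = Pz p q := by
  rw [Pz, Matrix.diagonal_mul_diagonal]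
  congr 1
  funext i
  rcases i with i | i | i <;> simp

theorem Pm_sq (p q : ℕ) : Pm p q * Pm p q = Pm p q := by
  rw [Pm, Matrix.diagonal_mul_diagonal]
  congr 1
  funext i
  rcases i with i | i | i <;> simp

theorem Pp_tr (p q : ℕ) : (Pp p q).trace = p := by
  rw [Pp, Matrix.trace_diagonal, Fintype.sum_sum_type, Fintype.sum_sum_type]
  simp

theorem Pz_tr (p q : ℕ) : (Pz p q).trace = q := by
  rw [Pz, Matrix.trace_diagonal, Fintype.sum_sum_type, Fintype.sum_sum_type]
  simp

theorem Pm_tr (p q : ℕ) : (Pm p q).trace = p := by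
  rw [Pm, Matrix.trace_diagonal, Fintype.sum_sum_type, Fintype.sum_sum_type]
  simp

theorem Pp_big1 {p q : ℕ} (F : Matrix (Fin p) (Fin q) ℂ) :
    Pp p q * big1 F * Pz p q = Pp p q * big1 F := by
  ext i j
  rw [Pz, Matrix.mul_diagonal, Pp, Matrix.diagonal_mul]
  rcases i with i | i | i <;> rcases j with j | j | j <;>
    simp [big1, fromBlocks, fromCols]

theorem Pp_big2 {p q : ℕ} (Y : Matrix (Fin p) (Fin p) ℂ) :
    Pp p q * big2 (q := q) Y = big2 (q := q) Y := by
  ext i j
  rw [Pp, Matrix.diagonal_mul]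
  rcases i with i | i | i <;> rcases j with j | j | j <;>
    simp [big2, fromBlocks, fromCols]

theorem big2_Pm {p q : ℕ} (Y : Matrix (Fin p) (Fin p) ℂ) :
    big2 (q := q) Y * Pm p q = big2 (q := q) Y := by
  ext i j
  rw [Pm, Matrix.mul_diagonal]
  rcases i with i | i | i <;> rcases j with j | j | j <;>
    simp [big2, fromBlocks, fromCols]

theorem Pp_big1_inj {p q : ℕ} {F : Matrix (Fin p) (Fin q) ℂ} (h : Pp p q * big1 F = 0) :
    F = 0 := by
  ext i j
  have h1 := congrFun (congrFun h (Sum.inl i)) (Sum.inr (Sum.inl j))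
  rw [Pp, Matrix.diagonal_mul] at h1
  simpa [big1, fromBlocks, fromCols] using h1

theorem big2_inj {p q : ℕ} {Y : Matrix (Fin p) (Fin p) ℂ} (h : big2 (q := q) Y = 0) :
    Y = 0 := by
  ext i j
  have h1 := congrFun (congrFun h (Sum.inl i)) (Sum.inr (Sum.inr j))
  simpa [big2, fromBlocks, fromCols] using h1

/-- the map `F ↦ P big1 F` -/
def m1 (p q : ℕ) : Matrix (Fin p) (Fin q) ℂ →ₗ[ℂ] Matrix (I p q) (I p q) ℂ where
  toFun F := Pp p q * big1 F
  map_add' F F' := by
    rw [← mul_add]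
    congr 1
    ext i j
    rcases i with i | i | i <;> rcases j with j | j | j <;>
      simp [big1, fromBlocks, fromCols] <;> ring
  map_smul' c F := by
    rw [RingHom.id_apply, ← mul_smul_comm]
    congr 1
    ext i j
    rcases i with i | i | i <;> rcases j with j | j | j <;>
      simp [big1, fromBlocks, fromCols]

/-- the map `Y ↦ big2 Y` -/
def m2 (p q : ℕ) : Matrix (Fin p) (Fin p) ℂ →ₗ[ℂ] Matrix (I p q) (I p q) ℂ where
  toFun Y := big2 Y
  map_add' F F' := by
    ext i j
    rcases i with i | i | i <;> rcases j with j | j | j <;>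
      simp [big2, fromBlocks, fromCols]
  map_smul' c F := by
    ext i j
    rcases i with i | i | i <;> rcases j with j | j | j <;>
      simp [big2, fromBlocks, fromCols]

theorem x0_big2 {p q : ℕ} (Y : Matrix (Fin p) (Fin p) ℂ) :
    x0 p q * big2 Y - big2 Y * x0 p q = (2 : ℂ) • big2 (q := q) Y := by
  rw [x0_eq]
  ext i j
  rw [Matrix.sub_apply, Matrix.diagonal_mul, Matrix.mul_diagonal, Matrix.smul_apply]
  rcases i with i | i | i <;> rcases j with j | j | j <;>
    simp [big2, fromBlocks, fromCols] <;> ring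

theorem ins_bound (hexp : S_exp) (hspan : S_span) (hsimp : S_simp) {p q : ℕ} (G : Gr p q)
    (hp : 0 < p) (hS : IsStar (com G.ops1)) (hF : Factor (com G.ops1))
    (hx : x0 p q ∈ com ((com G.ops1 : Submodule ℂ (Matrix (I p q) (I p q) ℂ)) :
      Set (Matrix (I p q) (I p q) ℂ)))
    (hnor : ∀ y ∈ G.alg, ∀ s ∈ com G.ops1, y * s - s * y ∈ com G.ops1)
    {y : Matrix (I p q) (I p q) ℂ} (hy : y ∈ com G.ops1) (hy3 : y * y * y = y)
    (hyt : (y * y).trace = 2 * p) (hy0 : y.trace = 0) :
    ∃ k1 k0 : ℕ, k1 * (2 * p + q) = p * p ∧ k0 * (2 * p + q) = p * q ∧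
      finrank ℂ G.h1 ≤ k1 * k0 ∧ finrank ℂ G.h2 ≤ k1 * k1 := by
  obtain ⟨S, hSdef⟩ : ∃ S, S = com G.ops1 := ⟨_, rfl⟩
  rw [← hSdef] at hS hF hx hnor hy
  have hC := com_star hS
  have hcard : Fintype.card (I p q) = 2 * p + q := by
    simp [I]
    ring
  have hn0 : 0 < Fintype.card (I p q) := by rw [hcard]; omega
  have hnC : ((2 * p + q : ℕ) : ℂ) ≠ 0 := by
    rw [← hcard]
    exact_mod_cast hn0.ne'
  obtain ⟨R, hR⟩ : ∃ R, R = (1 / 2 : ℂ) • (y * y + y) := ⟨_, rfl⟩
  have hRS : R ∈ S := by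
    rw [hR]; exact S.smul_mem _ (S.add_mem (hS.2.1 _ hy _ hy) hy)
  have hRR : R * R = R := by
    rw [hR, smul_mul_smul_comm]
    have e : (y * y + y) * (y * y + y) = (2 : ℂ) • (y * y + y) := by
      have e1 : (y * y + y) * (y * y + y) = (y * y * y) * y + (y * y * y) + (y * y * y) + y * y := by
        noncomm_ring
      rw [e1, hy3]
      module
    rw [e, smul_smul]
    norm_num
  have hRt : R.trace = p := by
    rw [hR, Matrix.trace_smul, Matrix.trace_add, hyt, hy0, smul_eq_mul]; ring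
  have hR0 : R ≠ 0 := by
    intro h
    rw [h, Matrix.trace_zero] at hRt
    have : (p : ℂ) = 0 := hRt.symm
    have : p = 0 := by exact_mod_cast this
    omega
  have hPpC : Pp p q ∈ com (S : Set (Matrix (I p q) (I p q) ℂ)) := by
    rw [Pp_eq]
    exact Submodule.smul_mem _ _ (Submodule.add_mem _ (hC.2.1 _ hx _ hx) hx)
  have hPmC : Pm p q ∈ com (S : Set (Matrix (I p q) (I p q) ℂ)) := by
    rw [Pm_eq]
    exact Submodule.smul_mem _ _ (Submodule.sub_mem _ (hC.2.1 _ hx _ hx) hx)
  have hPzC : Pz p q ∈ com (S : Set (Matrix (I p q) (I p q) ℂ)) := by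
    rw [Pz_eq]
    exact Submodule.sub_mem _ hC.1 (hC.2.1 _ hx _ hx)
  have idem : ∀ A : Matrix (I p q) (I p q) ℂ, A ∈ com (S : Set (Matrix (I p q) (I p q) ℂ)) →
      A * A = A → ∀ m : ℕ, A.trace = m →
      finrank ℂ (LinearMap.range (Matrix.toLin' (A * R))) * (2 * p + q) = p * m := by
    intro A hA hAA m hm
    have h1 : (A * R) * (A * R) = A * R := by
      calc (A * R) * (A * R) = A * (R * A) * R := by noncomm_ring
        _ = A * (A * R) * R := by rw [(mem_com.1 hA) R hRS]
        _ = (A * A) * (R * R) := by noncomm_ring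
        _ = A * R := by rw [hAA, hRR]
    have h2 := trace_idem' _ h1
    have h3 := tr_mul hexp hspan hS hF hn0 hRS hA
    rw [h2, hm, hRt, hcard] at h3
    have h4 : (finrank ℂ (LinearMap.range (Matrix.toLin' (A * R))) : ℂ) * ((2 * p + q : ℕ) : ℂ) =
        p * m := by
      rw [h3]
      field_simp
    exact_mod_cast h4
  refine ⟨_, _, idem _ hPpC (Pp_sq p q) p (Pp_tr p q), idem _ hPzC (Pz_sq p q) q (Pz_tr p q),
    ?_, ?_⟩
  · have h1 : finrank ℂ (G.h1.map (m1 p q)) = finrank ℂ G.h1 := by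
      have hi : Function.Injective (m1 p q) := by
        intro F F' h
        have h2 : m1 p q (F - F') = 0 := by rw [map_sub]; exact sub_eq_zero.2 h
        exact sub_eq_zero.1 (Pp_big1_inj h2)
      exact (Submodule.equivMapOfInjective (m1 p q) hi G.h1).finrank_eq.symm
    rw [← h1, mul_comm]
    refine hom_bound hsimp hS hF hRS hR0 hPpC _ ?_
    rintro _ ⟨F, hFm, rfl⟩
    have hb : big1 F ∈ com (S : Set (Matrix (I p q) (I p q) ℂ)) := by
      rw [mem_com]
      intro s hs
      rw [hSdef] at hs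
      exact (hs _ ⟨F, hFm, Or.inl rfl⟩).symm
    refine ⟨hC.2.1 _ hPpC _ hb, ?_, Pp_big1 F⟩
    change Pp p q * (Pp p q * big1 F) = Pp p q * big1 F
    rw [← mul_assoc, Pp_sq]
  · have h1 : finrank ℂ (G.h2.map (m2 p q)) = finrank ℂ G.h2 := by
      have hi : Function.Injective (m2 p q) := by
        intro F F' h
        have h2 : m2 p q (F - F') = 0 := by rw [map_sub]; exact sub_eq_zero.2 h
        exact sub_eq_zero.1 (big2_inj (q := q) h2)
      exact (Submodule.equivMapOfInjective (m2 p q) hi G.h2).finrank_eq.symm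
    have hmp : finrank ℂ (LinearMap.range (Matrix.toLin' (Pm p q * R))) =
        finrank ℂ (LinearMap.range (Matrix.toLin' (Pp p q * R))) := by
      have h2 := idem _ hPmC (Pm_sq p q) p (Pm_tr p q)
      have h3 := idem _ hPpC (Pp_sq p q) p (Pp_tr p q)
      have h4 : 0 < 2 * p + q := by omega
      exact Nat.eq_of_mul_eq_mul_right h4 (h2.trans h3.symm)
    rw [← h1]
    have h5 := hom_bound hsimp hS hF hRS hR0 (B := Pm p q) hPpC (G.h2.map (m2 p q)) (by
      rintro _ ⟨Y, hY, rfl⟩
      refine ⟨?_, Pp_big2 Y, big2_Pm Y⟩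
      rw [mem_com]
      intro s hs
      have e1 : big2 Y * s - s * big2 Y ∈ S :=
        hnor _ (Submodule.subset_span (Or.inr (Or.inr ⟨Y, hY, Or.inl rfl⟩))) s hs
      have e2 := (mem_com.1 hx) _ e1
      have e3 := (mem_com.1 hx) _ hs
      have e4 := x0_big2 (q := q) Y
      have e5 : (2 : ℂ) • (big2 Y * s - s * big2 Y) = 0 := by
        calc (2 : ℂ) • (big2 Y * s - s * big2 Y) =
              ((2 : ℂ) • big2 Y) * s - s * ((2 : ℂ) • big2 Y) := by
                rw [smul_sub, smul_mul_assoc, mul_smul_comm]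
          _ = (x0 p q * big2 Y - big2 Y * x0 p q) * s - s * (x0 p q * big2 Y - big2 Y * x0 p q) := by
                rw [e4]
          _ = x0 p q * (big2 Y * s - s * big2 Y) - (big2 Y * s - s * big2 Y) * x0 p q -
              (big2 Y * (x0 p q * s - s * x0 p q) - (x0 p q * s - s * x0 p q) * big2 Y) +
              (x0 p q * s * big2 Y - s * x0 p q * big2 Y) - (x0 p q * s - s * x0 p q) * big2 Y := by
                noncomm_ring
          _ = 0 := by
                rw [e2, e3]
                noncomm_ring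
      exact sub_eq_zero.1 ((smul_eq_zero.1 e5).resolve_left two_ne_zero))
    rwa [hmp] at h5

end Pool.Agent.TH119.S2
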