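import Pool.Agent.TH119.S2.Prj2
import Pool.Agent.W544.PG.Final2

/-!
# The Hodge Lie algebra of a sum of level two Hodge structures with many independent periods

The assembly follows `Pool.Agent.W544.PG.MainP2` and `MainP3`.
-/

open Matrix Finset Module

namespace Pool.Agent.TH119.S2

open Pool.Agent.W544.PG Pool.Agent

noncomputable section

/-- At least `t` of the normalised coordinates of the `(1,-1)`-part of the `i`-th piece of `T` are
algebraically independent: `ω` is a basis of the `(1,-1)`-part (of the eigenspace of the Hodge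
operator for the eigenvalue one in the piece), normalised by the coordinates in `e`. -/
def HasPeriods {n r : ℕ} (T : HS n) (c : Fin n → Fin r) (i : Fin r) (p t : ℕ) : Prop :=
  ∃ (ω : Fin p → Fin n → ℂ) (e : Fin p → Fin n) (s : Finset (Fin p × Fin n)),
    (∀ j, T.x *ᵥ ω j = ω j) ∧ (∀ j a, c a ≠ i → ω j a = 0) ∧
    (∀ j k, ω j (e k) = if j = k then 1 else 0) ∧
    AlgebraicIndependent ℚ (fun a : s => ω a.1.1 a.1.2) ∧ s.card = t

/-- The conditions on `T = T_1 + ... + T_r` (`c` is the decomposition of the basis). -/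
structure Wide {n : ℕ} (T : HS n) {r : ℕ} (c : Fin n → Fin r) (p q : Fin r → ℕ) : Prop where
  bQ : BD c T.Q
  bx : BD c T.x
  endo : ∀ P : Matrix (Fin n) (Fin n) ℚ, mC P * T.x = T.x * mC P →
    ∃ d : Fin r → ℚ, P = Matrix.diagonal (fun a => d (c a))
  tr : ∀ i, ∑ a with c a = i, (T.x * T.x) a a = 2 * (p i : ℂ)
  rk : ∀ i, (univ.filter fun a => c a = i).card = 2 * p i + q i
  num : ∀ i, (p i = 1 ∧ 0 < q i ∧ q i ≠ 2) ∨
    (0 < p i ∧ 2 * p i ^ 2 * (p i ^ 2 + 1) < (q i - 2 * p i) * (q i + p i)) ∨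
    (0 < p i ∧ ∃ t, HasPeriods T c i (p i) t ∧ 2 * p i ^ 3 + 4 * p i < (q i - 2 * p i) * t + q i)

variable {n r : ℕ} {T : HS n} {c : Fin n → Fin r} {p q : Fin r → ℕ}

theorem exists_blk2 (hsub : S_sub) (hB : Wide T c p q) (i : Fin r) :
    ∃ (e : Fin (2 * p i + q i) → Fin n) (T' : HS (2 * p i + q i)), Blk T c i e T' := by
  obtain ⟨e, he⟩ := exists_enum c i (hB.rk i)
  obtain ⟨T', h1, h2⟩ := hsub n _ T e he.inj (by
    intro a b hb
    have hcb : c b ≠ i := fun h => by
      obtain ⟨j, hj⟩ := he.surj b h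
      exact hb j hj
    refine ⟨hB.bQ _ _ ?_, hB.bx _ _ ?_, hB.bx _ _ ?_⟩
    · rw [he.col]; exact Ne.symm hcb
    · rw [he.col]; exact Ne.symm hcb
    · rw [he.col]; exact hcb)
  exact ⟨e, T', he, h1, h2⟩

theorem blk_scalar {i : Fin r} {k : ℕ} {e : Fin k → Fin n} {T' : HS k} (b : Blk T c i e T')
    (hB : Wide T c p q) : T'.Scalar := by
  intro P hP
  obtain ⟨Ph, hPh⟩ : ∃ Ph : Matrix (Fin n) (Fin n) ℚ, Ph = (Matrix.of fun a j =>
      if e j = a then (1 : ℚ) else 0) * P * (Matrix.of fun a j => if e j = a then (1 : ℚ) else 0)ᵀ :=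
    ⟨_, rfl⟩
  have h1 : mC Ph = sel e * mC P * (sel e)ᵀ := by
    rw [hPh]
    ext a a'
    simp only [mC, Matrix.map_apply, Matrix.mul_apply, Matrix.of_apply, Matrix.transpose_apply,
      sel]
    push_cast
    refine Finset.sum_congr rfl fun x _ => ?_
    congr 1
    · refine Finset.sum_congr rfl fun y _ => ?_
      split_ifs <;> simp
    · split_ifs <;> simp
  have h2 : mC Ph * T.x = T.x * mC Ph := by
    rw [h1, ← Matrix.mul_assoc, ← Matrix.mul_assoc, b.en.mul_sel hB.bx, Matrix.mul_assoc,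
      b.en.selT_mul hB.bx, ← b.x]
    calc sel e * mC P * (T'.x * (sel e)ᵀ) = sel e * (mC P * T'.x) * (sel e)ᵀ := by
          simp only [Matrix.mul_assoc]
      _ = _ := by rw [hP]; simp only [Matrix.mul_assoc]
  obtain ⟨d, hd⟩ := hB.endo Ph h2
  refine ⟨d i, ?_⟩
  have h3 : ∀ j j', Ph (e j) (e j') = P j j' := by
    intro j j'
    rw [hPh]
    simp [Matrix.mul_apply, b.en.inj.eq_iff]
  ext j j'
  rw [← h3, hd, Matrix.diagonal_apply, Matrix.smul_apply, Matrix.one_apply]
  by_cases hj : j = j'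
  · subst hj
    simp [b.en.col]
  · rw [if_neg fun h => hj (b.en.inj h), if_neg hj]
    simp

theorem blk_trace {i : Fin r} {k : ℕ} {e : Fin k → Fin n} {T' : HS k} (b : Blk T c i e T')
    (hB : Wide T c p q) : (T'.x * T'.x).trace = 2 * (p i : ℂ) := by
  rw [b.x, ← b.en.sub_mul hB.bx, ← hB.tr i, Matrix.trace]
  simp only [Matrix.diag_apply, Matrix.submatrix_apply]
  have h1 : (univ.filter fun a => c a = i) = univ.image e := by
    ext a
    simp only [Finset.mem_filter, Finset.mem_univ, true_and, Finset.mem_image]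
    constructor
    · intro h
      exact b.en.surj a h
    · rintro ⟨j, rfl⟩
      exact b.en.col j
  rw [h1, Finset.sum_image (fun x _ y _ h => b.en.inj h)]

theorem BD_C2 (hB : Wide T c p q) : BD c T.C :=
  ((hB.bx.mul hB.bx).smul 2).sub BD.one

theorem blk_C {i : Fin r} {k : ℕ} {e : Fin k → Fin n} {T' : HS k} (b : Blk T c i e T')
    (hB : Wide T c p q) : T'.C = T.C.submatrix e e := by
  unfold HS.C
  rw [b.x, ← b.en.sub_mul hB.bx]
  ext j j'
  simp [Matrix.one_apply, b.en.inj.eq_iff]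

theorem blk_skew {i : Fin r} {k : ℕ} {e : Fin k → Fin n} {T' : HS k} (b : Blk T c i e T')
    (hB : Wide T c p q) {y : Matrix (Fin n) (Fin n) ℂ} (hy : yᵀ * mC T.Q + mC T.Q * y = 0) :
    (y.submatrix e e)ᵀ * mC T'.Q + mC T'.Q * y.submatrix e e = 0 := by
  have hQ := hB.bQ.mC
  have h1 : (y.submatrix e e)ᵀ * mC T'.Q = (yᵀ * mC T.Q).submatrix e e := by
    rw [b.en.sub_mul hQ, b.Q, mC_sub]
    rfl
  have h2 : mC T'.Q * y.submatrix e e = (mC T.Q * y).submatrix e e := by
    rw [b.Q, mC_sub, sub_eq e (mC T.Q * y), sub_eq e y, ← Matrix.mul_assoc,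
      ← Matrix.mul_assoc (sel e)ᵀ, b.en.selT_mul hQ]
    simp only [Matrix.mul_assoc]
  rw [h1, h2]
  have h3 := congrArg (fun M => M.submatrix e e) hy
  exact h3

theorem Cnd.mono {p q t t' : ℕ} (h : Cnd p q t) (ht : t ≤ t') : Cnd p q t' := by
  unfold Cnd at h ⊢
  have := Nat.mul_le_mul_left (q - 2 * p) ht
  omega

/-- The periods of a block. -/
theorem blk_periods {i : Fin r} {k : ℕ} {e : Fin k → Fin n} {T' : HS k} (b : Blk T c i e T')
    {m t : ℕ} (ht : HasPeriods T c i m t) :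
    ∃ (W : Matrix (Fin k) (Fin m) ℂ) (e' : Fin m → Fin k) (s : Finset (Fin m × Fin k)),
      T'.x * W = -W ∧ W.submatrix e' id = 1 ∧
      AlgebraicIndependent ℚ (fun a : s => W a.1.2 a.1.1) ∧ t ≤ s.card := by
  classical
  obtain ⟨ω, e1, s, w1, w2, w3, w4, rfl⟩ := ht
  obtain ⟨W0, hW0⟩ : ∃ W0 : Matrix (Fin k) (Fin m) ℂ, W0 = Matrix.of fun a j => ω j (e a) :=
    ⟨_, rfl⟩
  have h0 : T'.x * W0 = W0 := by
    ext a j
    have h1 := congrFun (w1 j) (e a)
    rw [hW0, Matrix.of_apply, ← h1, Matrix.mul_apply, b.x, mulVec, dotProduct]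
    have h2 : ∀ l, l ∉ univ.image e → T.x (e a) l * ω j l = 0 := by
      intro l hl
      have hcl : c l ≠ i := by
        intro hc
        obtain ⟨b', hb'⟩ := b.en.surj l hc
        exact hl (Finset.mem_image.2 ⟨b', Finset.mem_univ _, hb'⟩)
      rw [w2 j l hcl, mul_zero]
    rw [← Finset.sum_subset (Finset.subset_univ (univ.image e)) (fun l _ hl => h2 l hl),
      Finset.sum_image (fun x _ y _ h => b.en.inj h)]
    rfl
  have h1 : T'.x * W0.map (starRingEnd ℂ) = -W0.map (starRingEnd ℂ) := by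
    have h2 := congrArg (fun M : Matrix (Fin k) (Fin m) ℂ => M.map (starRingEnd ℂ)) h0
    simp only [Matrix.map_mul] at h2
    rw [T'.real, Matrix.neg_mul] at h2
    rw [← neg_eq_iff_eq_neg]
    exact h2
  have hsup : ∀ j a, ω j a ≠ 0 → ∃ b', e b' = a := by
    intro j a ha
    apply b.en.surj
    by_contra hc
    exact ha (w2 j a hc)
  have he1 : ∀ j, ∃ b', e b' = e1 j := by
    intro j
    apply hsup j
    rw [w3, if_pos rfl]
    exact one_ne_zero
  choose e' he' using he1
  refine ⟨W0.map (starRingEnd ℂ), e',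
    univ.filter (fun a : Fin m × Fin k => (a.1, e a.2) ∈ s), h1, ?_, ?_, ?_⟩
  · ext a j
    rw [Matrix.submatrix_apply, Matrix.map_apply, hW0, Matrix.of_apply, id, he', w3,
      Matrix.one_apply]
    by_cases h : a = j
    · rw [if_pos h, if_pos h.symm, map_one]
    · rw [if_neg h, if_neg (Ne.symm h), map_zero]
  · let f : (univ.filter (fun a : Fin m × Fin k => (a.1, e a.2) ∈ s) : Finset _) → s :=
      fun a => ⟨(a.1.1, e a.1.2), (Finset.mem_filter.1 a.2).2⟩
    have hf : Function.Injective f := by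
      rintro ⟨⟨a1, a2⟩, ha⟩ ⟨⟨b1, b2⟩, hb⟩ h
      have h2 := congrArg Subtype.val h
      simp only [f, Prod.mk.injEq] at h2
      apply Subtype.ext
      exact Prod.ext h2.1 (b.en.inj h2.2)
    have h2 := w4.comp f hf
    have h3 := h2.map' (f := ((Complex.conjAe.restrictScalars ℚ : ℂ ≃ₐ[ℚ] ℂ) : ℂ →ₐ[ℚ] ℂ))
      (Complex.conjAe.restrictScalars ℚ : ℂ ≃ₐ[ℚ] ℂ).injective
    have h4 : (fun a : (univ.filter (fun a : Fin m × Fin k => (a.1, e a.2) ∈ s) : Finset _) =>
        W0.map (starRingEnd ℂ) a.1.2 a.1.1) =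
        ⇑((Complex.conjAe.restrictScalars ℚ : ℂ ≃ₐ[ℚ] ℂ) : ℂ →ₐ[ℚ] ℂ) ∘
          ((fun a : s => ω a.1.1 a.1.2) ∘ f) := by
      funext a
      rw [Matrix.map_apply, hW0, Matrix.of_apply]
      rfl
    rw [h4]
    exact h3
  · have h2 : s ⊆ (univ.filter (fun a : Fin m × Fin k => (a.1, e a.2) ∈ s)).image
        (fun a => (a.1, e a.2)) := by
      intro a ha
      have h3 : ω a.1 a.2 ≠ 0 := by
        have h4 : Transcendental ℚ (ω a.1 a.2) := w4.transcendental ⟨a, ha⟩
        intro h5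
        rw [h5] at h4
        exact h4 isAlgebraic_zero
      obtain ⟨b', hb'⟩ := hsup a.1 a.2 h3
      refine Finset.mem_image.2 ⟨(a.1, b'), Finset.mem_filter.2 ⟨Finset.mem_univ _, ?_⟩, ?_⟩
      · rw [hb']; exact ha
      · rw [hb']
    exact (Finset.card_le_card h2).trans Finset.card_image_le

/-- every element of `so(T_i)` is the restriction of an element of `hT` -/
theorem blk_surj (hdia : S_dia) {i : Fin r} {e : Fin (2 * p i + q i) → Fin n}
    {T' : HS (2 * p i + q i)}
    (b : Blk T c i e T') (hB : Wide T c p q) (Z : Matrix (Fin (2 * p i + q i)) _ ℂ)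
    (hZ : Zᵀ * mC T'.Q + mC T'.Q * Z = 0) : ∃ y ∈ T.hT, y.submatrix e e = Z := by
  have hbd : ∀ y ∈ T.hT, BD c y := hdia n r T c hB.bQ hB.bx
  have hp : 0 < p i := by
    rcases hB.num i with h | h | h
    · omega
    · exact h.1
    · exact h.1
  have k1 : ∀ y ∈ T.hT.map (subL e), yᵀ * mC T'.Q + mC T'.Q * y = 0 := by
    rintro _ ⟨y, hy, rfl⟩
    exact blk_skew b hB ((mem_hT T y).1 hy).1
  have k2 : ∀ y ∈ T.hT.map (subL e), ∀ z ∈ T.hT.map (subL e),
      y * z - z * y ∈ T.hT.map (subL e) := by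
    rintro _ ⟨y, hy, rfl⟩ _ ⟨z, hz, rfl⟩
    refine ⟨y * z - z * y, hT_lie T W101.PG.lie hy hz, ?_⟩
    change (y * z - z * y).submatrix e e = y.submatrix e e * z.submatrix e e -
      z.submatrix e e * y.submatrix e e
    rw [← b.en.sub_mul (hbd z hz), ← b.en.sub_mul (hbd y hy)]
    rfl
  have k3 : ∀ y ∈ T.hT.map (subL e), -(T'.C * y.map (starRingEnd ℂ) * T'.C) ∈
      T.hT.map (subL e) := by
    rintro _ ⟨y, hy, rfl⟩
    refine ⟨_, W199.PG.star' n T y hy, ?_⟩
    change (-(T.C * y.map (starRingEnd ℂ) * T.C)).submatrix e e =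
      -(T'.C * (y.submatrix e e).map (starRingEnd ℂ) * T'.C)
    have h1 : BD c (y.map (starRingEnd ℂ)) := (hbd y hy).map (map_zero _)
    rw [blk_C b hB, ← map_sub_ee, ← b.en.sub_mul h1, ← b.en.sub_mul (BD_C2 hB)]
    rfl
  have k4 : ∀ σ : ℂ ≃+* ℂ, T'.x.map σ ∈ T.hT.map (subL e) := by
    intro σ
    refine ⟨T.x.map σ, W131.PG.gal W101.PG.hk n T σ, ?_⟩
    change (T.x.map σ).submatrix e e = T'.x.map σ
    rw [b.x]
    rfl
  have k5 : ∀ δ : Derivation ℚ ℂ ℂ, T'.x.map δ ∈ T.hT.map (subL e) := by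
    intro δ
    refine ⟨T.x.map δ, hT_deriv T δ, ?_⟩
    change (T.x.map δ).submatrix e e = T'.x.map δ
    rw [b.x]
    rfl
  have h : Z ∈ T.hT.map (subL e) := by
    rcases hB.num i with h | h | ⟨_, t, ht, hc⟩
    · exact prj _ (p i) (q i) T' (blk_scalar b hB) (blk_trace b hB) rfl hp (Or.inl h.1)
        _ k1 k2 k3 k4 Z hZ
    · exact prj _ (p i) (q i) T' (blk_scalar b hB) (blk_trace b hB) rfl hp (Or.inr h.2)
        _ k1 k2 k3 k4 Z hZ
    · obtain ⟨W, e', s, hW, he', hs, hts⟩ := blk_periods b ht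
      exact prj2 _ (p i) (q i) T' (blk_scalar b hB) (blk_trace b hB) rfl hp W hW e' he' s hs
        (Cnd.mono hc hts) _ k1 k2 k3 k4 k5 Z hZ
  obtain ⟨y, hy, hyZ⟩ := h
  exact ⟨y, hy, hyZ⟩

theorem mainQ (hsub : S_sub) (hsim : S_sim) (hgou : S_sim → S_gou) (htht : S_tht) (hde2 : S_de2)
    (hdia : S_dia) (hB : Wide T c p q) (Z : Matrix (Fin n) (Fin n) ℂ)
    (hZ : Zᵀ * mC T.Q + mC T.Q * Z = 0) (hZc : BD c Z) : Z ∈ T.hT := by
  have hbd : ∀ y ∈ T.hT, BD c y := hdia n r T c hB.bQ hB.bx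
  choose e T' b using fun i => exists_blk2 hsub hB i
  have hdet : ∀ i, (mC (T' i).Q).det ≠ 0 := by
    intro i h
    apply W74.PG.det_ne (T' i)
    have h1 : (mC (T' i).Q).det = (((T' i).Q.det : ℚ) : ℂ) := by
      have h2 := (Rat.castHom ℂ).map_det (T' i).Q
      exact h2.symm
    rw [h1] at h
    exact_mod_cast h
  have horth : ∀ i, ∃ g : Matrix (Fin (2 * p i + q i)) (Fin (2 * p i + q i)) ℂ,
      gᵀ * mC (T' i).Q * g = 1 := fun i => W557.PG.orth _ (by rw [mC_T, (T' i).symm]) (hdet i)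
  choose g hg using horth
  obtain ⟨g', hg'⟩ : ∃ g' : ∀ i, Matrix (Fin (2 * p i + q i)) (Fin (2 * p i + q i)) ℂ,
      g' = fun i => (g i)ᵀ * mC (T' i).Q := ⟨_, rfl⟩
  have e1 : ∀ i, g' i * g i = 1 := fun i => by rw [hg']; exact hg i
  have e2 : ∀ i, g i * g' i = 1 := fun i => mul_eq_one_comm.1 (e1 i)
  -- skewness in the new coordinates
  have sk1 : ∀ i (y : Matrix (Fin (2 * p i + q i)) (Fin (2 * p i + q i)) ℂ),
      yᵀ * mC (T' i).Q + mC (T' i).Q * y = 0 → (g' i * y * g i)ᵀ = -(g' i * y * g i) := by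
    intro i y hy
    have h1 := cc_skew (e2 i) (mC (T' i).Q) y hy
    rw [hg i, Matrix.mul_one, Matrix.one_mul] at h1
    exact eq_neg_of_add_eq_zero_left h1
  have sk2 : ∀ i (y : Matrix (Fin (2 * p i + q i)) (Fin (2 * p i + q i)) ℂ),
      yᵀ = -y → (g i * y * g' i)ᵀ * mC (T' i).Q + mC (T' i).Q * (g i * y * g' i) = 0 := by
    intro i y hy
    have h1 : (g i * y * g' i)ᵀ * mC (T' i).Q = -(mC (T' i).Q * (g i * y * g' i)) := by
      have t1 : (g i)ᵀ * (g' i)ᵀ = 1 := by rw [← Matrix.transpose_mul, e1, Matrix.transpose_one]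
      have t2 : (g' i)ᵀ * (g i)ᵀ = 1 := by rw [← Matrix.transpose_mul, e2, Matrix.transpose_one]
      have t3 : (g i)ᵀ * mC (T' i).Q = g' i := by rw [hg']
      have t4 : mC (T' i).Q * g i = (g' i)ᵀ := by
        calc mC (T' i).Q * g i = (g' i)ᵀ * (g i)ᵀ * (mC (T' i).Q * g i) := by
              rw [t2, Matrix.one_mul]
          _ = (g' i)ᵀ * ((g i)ᵀ * mC (T' i).Q * g i) := by simp only [Matrix.mul_assoc]
          _ = (g' i)ᵀ := by rw [hg i, Matrix.mul_one]
      rw [Matrix.transpose_mul, Matrix.transpose_mul, hy]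
      calc (g' i)ᵀ * (-y * (g i)ᵀ) * mC (T' i).Q = -((g' i)ᵀ * y * ((g i)ᵀ * mC (T' i).Q)) := by
            simp only [Matrix.mul_assoc, Matrix.neg_mul, Matrix.mul_neg]
        _ = -((g' i)ᵀ * y * g' i) := by rw [t3]
        _ = -(mC (T' i).Q * (g i * y * g' i)) := by
            rw [← t4]
            simp only [Matrix.mul_assoc]
    rw [h1, neg_add_cancel]
  obtain ⟨h, hh⟩ : ∃ h, h = T.hT.map (phi e g g') := ⟨_, rfl⟩
  have mem : ∀ y ∈ T.hT, phi e g g' y ∈ h := fun y hy => by
    rw [hh]; exact ⟨y, hy, rfl⟩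
  have A1 : ∀ y ∈ h, ∀ i, (y i)ᵀ = -y i := by
    rw [hh]
    rintro _ ⟨y, hy, rfl⟩ i
    exact sk1 i _ (blk_skew (b i) hB ((mem_hT T y).1 hy).1)
  have A2 : ∀ y ∈ h, ∀ z ∈ h, (fun i => br (y i) (z i)) ∈ h := by
    rw [hh]
    rintro _ ⟨y, hy, rfl⟩ _ ⟨z, hz, rfl⟩
    refine ⟨y * z - z * y, hT_lie T W101.PG.lie hy hz, ?_⟩
    funext i
    change g' i * (y * z - z * y).submatrix (e i) (e i) * g i =
      g' i * y.submatrix (e i) (e i) * g i * (g' i * z.submatrix (e i) (e i) * g i) -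
      g' i * z.submatrix (e i) (e i) * g i * (g' i * y.submatrix (e i) (e i) * g i)
    rw [cc_mul' (e2 i), cc_mul' (e2 i), ← (b i).en.sub_mul (hbd z hz),
      ← (b i).en.sub_mul (hbd y hy), ← Matrix.sub_mul, ← Matrix.mul_sub]
    rfl
  have A3 : ∀ (i : Fin r) (Z : Matrix (Fin (2 * p i + q i)) (Fin (2 * p i + q i)) ℂ),
      Zᵀ = -Z → ∃ y ∈ h, y i = Z := by
    intro i Z hZ
    obtain ⟨y, hy, hyZ⟩ := blk_surj hdia (b i) hB _ (sk2 i Z hZ)
    refine ⟨_, mem y hy, ?_⟩
    change g' i * y.submatrix (e i) (e i) * g i = Z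
    rw [hyZ]
    exact cc_fwd (e1 i) Z
  have hm : ∀ i, 3 ≤ 2 * p i + q i ∧ 2 * p i + q i ≠ 4 ∧ (p i = 1 ∨ 2 * p i + q i ≠ 8) := by
    intro i
    rcases hB.num i with h | ⟨h0, h⟩ | ⟨h0, t, _, h⟩
    · omega
    · have hlt : 2 * p i < q i := by
        by_contra h'
        rw [Nat.sub_eq_zero_of_le (not_lt.1 h'), zero_mul] at h
        omega
      omega
    · have hlt : 2 * p i < q i := Cnd.lt h
      omega
  have A4 : ∀ i j, i ≠ j → ∃ y ∈ h, y i = 0 ∧ y j ≠ 0 := by
    intro i j hij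
    by_contra hcon
    push Not at hcon
    obtain ⟨θ, hθ⟩ := exists_theta h (LinearMap.proj (R := ℂ)
      (φ := fun i : Fin r => Matrix (Fin (2 * p i + q i)) (Fin (2 * p i + q i)) ℂ) i)
      (LinearMap.proj (R := ℂ)
      (φ := fun i : Fin r => Matrix (Fin (2 * p i + q i)) (Fin (2 * p i + q i)) ℂ) j) hcon
    replace hθ : ∀ y ∈ h, θ (y i) = y j := hθ
    have hbr : ∀ y z, yᵀ = -y → zᵀ = -z → θ (br y z) = br (θ y) (θ z) := by
      intro y z hy hz
      obtain ⟨Y, hY, rfl⟩ := A3 i y hy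
      obtain ⟨W, hW, rfl⟩ := A3 i z hz
      have h1 := hθ _ (A2 Y hY W hW)
      rw [hθ Y hY, hθ W hW]
      exact h1
    have hinj : ∀ y, yᵀ = -y → θ y = 0 → y = 0 := by
      intro y hy hy0
      by_contra hne
      have hall : ∀ Z : Matrix (Fin (2 * p i + q i)) (Fin (2 * p i + q i)) ℂ, Zᵀ = -Z →
          θ Z = 0 := by
        intro Z hZ
        let J : Submodule ℂ (Matrix (Fin (2 * p i + q i)) (Fin (2 * p i + q i)) ℂ) :=
          { carrier := {y | yᵀ = -y ∧ θ y = 0}
            zero_mem' := by simp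
            add_mem' := by
              rintro a b ⟨ha, ha'⟩ ⟨hb, hb'⟩
              refine ⟨?_, ?_⟩
              · rw [Matrix.transpose_add, ha, hb]; abel
              · rw [map_add, ha', hb', add_zero]
            smul_mem' := by
              rintro z a ⟨ha, ha'⟩
              refine ⟨?_, ?_⟩
              · rw [Matrix.transpose_smul, ha, smul_neg]
              · rw [map_smul, ha', smul_zero] }
        have h1 : Z ∈ J := by
          apply hsim _ (hm i).1 (hm i).2.1 J (fun y hy => hy.1) _ _ Z hZ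
          · intro Z hZ y hy
            refine ⟨?_, ?_⟩
            · unfold br
              rw [Matrix.transpose_sub, Matrix.transpose_mul, Matrix.transpose_mul, hy.1, hZ]
              simp only [Matrix.neg_mul, Matrix.mul_neg, neg_neg]
              abel
            · rw [hbr Z y hZ hy.1, hy.2]
              unfold br
              rw [Matrix.mul_zero, Matrix.zero_mul, sub_zero]
          · intro hJ
            apply hne
            have : y ∈ J := ⟨hy, hy0⟩
            rw [hJ] at this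
            exact (Submodule.mem_bot ℂ).1 this
        exact h1.2
      have hj3 := (hm j).1
      obtain ⟨i0, i1, hi⟩ : ∃ i0 i1 : Fin (2 * p j + q j), i0 ≠ i1 :=
        ⟨⟨0, by omega⟩, ⟨1, by omega⟩, by simp [Fin.ext_iff]⟩
      obtain ⟨W, hW, hWj⟩ := A3 j (Matrix.single i0 i1 1 - Matrix.single i1 i0 1) (by
          rw [Matrix.transpose_sub, Matrix.transpose_single, Matrix.transpose_single, neg_sub])
      have h2 := hθ W hW
      rw [hall _ (A1 W hW i), hWj] at h2
      have h3 := congrFun (congrFun h2 i0) i1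
      simp [Matrix.single, hi, hi.symm] at h3
    have hiso : IsoSo θ := by
      refine ⟨?_, hinj, ?_, hbr⟩
      · intro y hy
        obtain ⟨Y, hY, rfl⟩ := A3 i y hy
        rw [hθ Y hY]
        exact A1 Y hY j
      · intro z hz
        obtain ⟨Y, hY, rfl⟩ := A3 j z hz
        exact ⟨Y i, A1 Y hY i, hθ Y hY⟩
    have hgx : ∀ σ : ℂ ≃+* ℂ, T.x.map σ ∈ T.hT := fun σ => W131.PG.gal W101.PG.hk n T σ
    have hθx : ∀ σ : ℂ ≃+* ℂ, θ (g' i * (T.x.map σ).submatrix (e i) (e i) * g i) =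
        g' j * (T.x.map σ).submatrix (e j) (e j) * g j := fun σ => hθ _ (mem _ (hgx σ))
    have hx : ∀ i, g' i * (T.x.map (RingEquiv.refl ℂ)).submatrix (e i) (e i) * g i =
        g' i * (T' i).x * g i := by
      intro i
      rw [(b i).x]
      have h2 : T.x.map (RingEquiv.refl ℂ) = T.x := by
        ext i j
        simp
      rw [h2]
    have hcube : ∀ i, g' i * (T' i).x * g i * (g' i * (T' i).x * g i) * (g' i * (T' i).x * g i) =
        g' i * (T' i).x * g i := by
      intro i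
      rw [cc_mul' (e2 i), cc_mul' (e2 i), (T' i).cube]
    obtain ⟨A, hA0, hA⟩ := htht (2 * p i + q i) (2 * p j + q j) (p i) (hm i).1 (hm j).1
      (hm i).2.2 θ hiso (g' i * (T' i).x * g i) (sk1 i _ (T' i).skew) (hcube i) (by
        rw [cc_mul' (e2 i), Matrix.mul_assoc, Matrix.trace_mul_comm, Matrix.mul_assoc, e2,
          Matrix.mul_one]
        exact blk_trace (b i) hB) (by
        rw [← hx i, hθx, hx j, hcube j])
    obtain ⟨C, hC⟩ : ∃ C, C = sel (e j) * g j * A * g' i * (sel (e i))ᵀ := ⟨_, rfl⟩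
    have hcomm : ∀ σ : ℂ ≃+* ℂ, C * T.x.map σ = T.x.map σ * C := by
      intro σ
      have hbx : BD c (T.x.map σ) := hB.bx.map (map_zero _)
      have h1 := hA _ (sk1 i _ (blk_skew (b i) hB ((mem_hT T _).1 (hgx σ)).1))
      rw [hθx σ] at h1
      have h2 : C * T.x.map σ = sel (e j) * g j *
          (A * (g' i * (T.x.map σ).submatrix (e i) (e i) * g i)) * g' i * (sel (e i))ᵀ := by
        rw [hC, Matrix.mul_assoc, (b i).en.selT_mul hbx]
        calc sel (e j) * g j * A * g' i * ((T.x.map σ).submatrix (e i) (e i) * (sel (e i))ᵀ)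
            = sel (e j) * g j * A * g' i * (T.x.map σ).submatrix (e i) (e i) * (g i * g' i) *
              (sel (e i))ᵀ := by
              rw [e2, Matrix.mul_one]; simp only [Matrix.mul_assoc]
          _ = _ := by simp only [Matrix.mul_assoc]
      have h3 : T.x.map σ * C = sel (e j) * g j *
          ((g' j * (T.x.map σ).submatrix (e j) (e j) * g j) * A) * g' i * (sel (e i))ᵀ := by
        rw [hC]
        calc T.x.map σ * (sel (e j) * g j * A * g' i * (sel (e i))ᵀ)
            = (T.x.map σ * sel (e j)) * (g j * A * g' i * (sel (e i))ᵀ) := by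
              simp only [Matrix.mul_assoc]
          _ = sel (e j) * (T.x.map σ).submatrix (e j) (e j) * (g j * A * g' i * (sel (e i))ᵀ) := by
              rw [(b j).en.mul_sel hbx]
          _ = sel (e j) * (g j * g' j) * (T.x.map σ).submatrix (e j) (e j) *
              (g j * A * g' i * (sel (e i))ᵀ) := by
              rw [e2, Matrix.mul_one]
          _ = _ := by simp only [Matrix.mul_assoc]
      rw [h2, h3, h1]
    have hC1 : ∀ a a', a ≠ a' → C a a' = 0 := by
      have h1 := hde2 n T C hcomm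
      intro a a' haa'
      have h2 : ∀ D ∈ Submodule.span ℂ
          {D | ∃ P : Matrix (Fin n) (Fin n) ℚ, D = mC P ∧ mC P * T.x = T.x * mC P},
          D a a' = 0 := by
        intro D hD
        induction hD using Submodule.span_induction with
        | mem D h =>
          obtain ⟨P, rfl, hP⟩ := h
          obtain ⟨d, hd⟩ := hB.endo P hP
          rw [hd, mC, Matrix.map_apply, Matrix.diagonal_apply_ne _ haa']
          simp
        | zero => simp
        | add x y _ _ hx hy => rw [Matrix.add_apply, hx, hy, add_zero]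
        | smul z x _ hx => rw [Matrix.smul_apply, hx, smul_zero]
      exact h2 C h1
    have hC2 : C = 0 := by
      ext a a'
      by_cases haa' : a = a'
      · subst haa'
        rw [hC, Matrix.zero_apply]
        by_cases hai : c a = i
        · have h1 : ∀ l, (sel (e j) * g j * A * g' i) a l = 0 := by
            intro l
            rw [Matrix.mul_assoc, Matrix.mul_assoc, Matrix.mul_apply]
            refine Finset.sum_eq_zero fun l' _ => ?_
            have h2 : sel (e j) a l' = 0 := by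
              rw [sel, Matrix.of_apply, if_neg]
              intro h
              apply hij
              rw [← hai, ← h, (b j).en.col]
            rw [h2, zero_mul]
          rw [Matrix.mul_apply]
          refine Finset.sum_eq_zero fun l _ => ?_
          rw [h1, zero_mul]
        · rw [Matrix.mul_apply]
          refine Finset.sum_eq_zero fun l _ => ?_
          have h2 : (sel (e i))ᵀ l a = 0 := by
            rw [Matrix.transpose_apply, sel, Matrix.of_apply, if_neg]
            intro h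
            apply hai
            rw [← h, (b i).en.col]
          rw [h2, mul_zero]
      · exact hC1 a a' haa'
    apply hA0
    have h4 : A = g' j * ((sel (e j))ᵀ * C * sel (e i)) * g i := by
      rw [hC]
      calc A = (g' j * g j) * A * (g' i * g i) := by rw [e1, e1, Matrix.one_mul, Matrix.mul_one]
        _ = g' j * (((sel (e j))ᵀ * sel (e j)) * g j * A * g' i * ((sel (e i))ᵀ * sel (e i))) *
            g i := by
            rw [sel_T_sel _ (b j).en.inj, sel_T_sel _ (b i).en.inj, Matrix.one_mul,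
              Matrix.mul_one]
            simp only [Matrix.mul_assoc]
        _ = _ := by simp only [Matrix.mul_assoc]
    rw [h4, hC2, Matrix.mul_zero, Matrix.zero_mul, Matrix.mul_zero, Matrix.zero_mul]
  have key := hgou hsim r (fun i => 2 * p i + q i) (fun i => ⟨(hm i).1, (hm i).2.1⟩) h A1 A2 A3 A4
    (phi e g g' Z) (fun i => sk1 i _ (blk_skew (b i) hB hZ))
  rw [hh] at key
  obtain ⟨y, hy, hyZ⟩ := key
  have hfin : y = Z := by
    refine ext_of_sub (fun i => (b i).en) (hbd y hy) hZc fun i => ?_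
    have h1 := congrFun hyZ i
    change g' i * y.submatrix (e i) (e i) * g i = g' i * Z.submatrix (e i) (e i) * g i at h1
    rw [← cc_back (e2 i) (y.submatrix (e i) (e i)), h1, cc_back (e2 i)]
  rw [← hfin]
  exact hy

/-- The Hodge Lie algebra contains (hence is) the sum of the `so(T_i)`. -/
theorem mainQF (hB : Wide T c p q) (Z : Matrix (Fin n) (Fin n) ℂ)
    (hZ : Zᵀ * mC T.Q + mC T.Q * Z = 0) (hZc : BD c Z) : Z ∈ T.hT :=
  mainQ W571.PG.sub W589.PG.Sim.sim W756.PG.gou thtF W696.PG.de2 W138.PG.dia hB Z hZ hZc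

/-- Hodge classes on products of the surfaces -/
theorem hcQ (hB : Wide T c p q) {s m : ℕ} (d : Fin s → Fin r) (a : Fin m → Fin r)
    (t : (Fin m → Fin s ⊕ Fin n) → ℚ) (ht : T.IsHodgeS t)
    (hta : ∀ J, t J ≠ 0 → ∀ j, Sum.elim d c (J j) = a j)
    (htr : ∀ J, t J ≠ 0 → ∀ i, (univ.filter fun j => ∃ b, J j = Sum.inr b ∧ c b = i).card <
      2 * p i + q i) : t ∈ T.algP c d a := by
  refine W318.PG.hc2 n r s T c d hB.bQ (fun k t ht hk =>
    W410.PG.FF2.ff2 n r k T c hB.bQ t (fun Z hZ hZc =>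
      ((mem_hT T Z).1 (mainQF hB Z hZ hZc)).2 k t ht) hk) m a t ht hta fun J hJ i => ?_
  rw [hB.rk i]
  exact htr J hJ i

end

end Pool.Agent.TH119.S2
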