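import Pool.Agent.TH119.S2.Core2
import Pool.Agent.W437.HD.Deriv

/-!
# Algebraically independent periods and the positive part of the Hodge Lie algebra
-/

open Matrix Finset Module

namespace Pool.Agent.TH119.S2

open Pool.Agent.W544.PG Pool.Agent

noncomputable section

/-! ### The Hodge Lie algebra is stable under rational linear maps of `ℂ` -/

theorem lin_rat (f : ℂ →ₗ[ℚ] ℂ) (z : ℂ) (r : ℚ) : f (z * (r : ℂ)) = f z * (r : ℂ) := by
  have h : z * (r : ℂ) = r • z := by rw [Rat.smul_def, mul_comm]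
  rw [h, map_smul, Rat.smul_def, mul_comm]

theorem lin_rat' (f : ℂ →ₗ[ℚ] ℂ) (z : ℂ) (r : ℚ) : f ((r : ℂ) * z) = (r : ℂ) * f z := by
  rw [mul_comm, lin_rat, mul_comm]

theorem hT_map {n : ℕ} (T : HS n) (f : ℂ →ₗ[ℚ] ℂ) {y : Matrix (Fin n) (Fin n) ℂ}
    (hy : y ∈ T.hT) : y.map f ∈ T.hT := by
  rw [mem_hT] at hy ⊢
  refine ⟨?_, fun k t ht J => ?_⟩
  · ext i j
    have h1 := congrArg f (congrFun (congrFun hy.1 i) j)
    simp only [Matrix.add_apply, Matrix.mul_apply, Matrix.transpose_apply, Matrix.map_apply,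
      mC, Matrix.zero_apply, map_add, map_sum, map_zero, lin_rat, lin_rat'] at h1 ⊢
    exact h1
  · have h1 := congrArg f (hy.2 k t ht J)
    simp only [map_sum, lin_rat, map_zero] at h1
    exact h1

/-- A derivation as a rational linear map. -/
theorem hT_deriv {n : ℕ} (T : HS n) (δ : Derivation ℚ ℂ ℂ) : T.x.map δ ∈ T.hT := by
  have h1 := W131.PG.gal W101.PG.hk n T (RingEquiv.refl ℂ)
  have h2 : T.x.map (RingEquiv.refl ℂ) = T.x := by
    ext i j
    simp
  rw [h2] at h1
  exact hT_map T δ.toLinearMap h1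

/-! ### Decomposition of the elements of a graded Lie algebra -/

theorem alg_dec {p q : ℕ} (G : Gr p q) {y : Matrix (I p q) (I p q) ℂ} (hy : y ∈ G.alg) :
    ∃ X ∈ G.h0, ∃ F ∈ G.h1, ∃ F' ∈ G.h1, ∃ Y ∈ G.h2, ∃ Y' ∈ G.h2,
      y = big0 X + big1 F + (big1 F')ᴴ + big2 Y + (big2 Y')ᴴ := by
  have z0 : big0 (0 : Matrix (Fin p) (Fin p) ℂ × Matrix (Fin q) (Fin q) ℂ) = 0 := by
    ext i j
    rcases i with i | i | i <;> rcases j with j | j | j <;>
      simp [big0, fromBlocks]
  have z1 : big1 (0 : Matrix (Fin p) (Fin q) ℂ) = 0 := by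
    ext i j
    rcases i with i | i | i <;> rcases j with j | j | j <;>
      simp [big1, fromBlocks, fromCols]
  have z2 : big2 (q := q) (0 : Matrix (Fin p) (Fin p) ℂ) = 0 := by
    ext i j
    rcases i with i | i | i <;> rcases j with j | j | j <;>
      simp [big2, fromBlocks, fromCols]
  induction hy using Submodule.span_induction with
  | mem y h =>
    rcases h with ⟨X, hX, rfl⟩ | ⟨F, hF, rfl | rfl⟩ | ⟨Y, hY, rfl | rfl⟩
    · exact ⟨X, hX, 0, zero_mem _, 0, zero_mem _, 0, zero_mem _, 0, zero_mem _, by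
        rw [z1, z2]; simp⟩
    · exact ⟨0, zero_mem _, F, hF, 0, zero_mem _, 0, zero_mem _, 0, zero_mem _, by
        rw [z0, z1, z2]; simp⟩
    · exact ⟨0, zero_mem _, 0, zero_mem _, F, hF, 0, zero_mem _, 0, zero_mem _, by
        rw [z0, z1, z2]; simp⟩
    · exact ⟨0, zero_mem _, 0, zero_mem _, 0, zero_mem _, Y, hY, 0, zero_mem _, by
        rw [z0, z1, z2]; simp⟩
    · exact ⟨0, zero_mem _, 0, zero_mem _, 0, zero_mem _, 0, zero_mem _, Y, hY, by
        rw [z0, z1, z2]; simp⟩
  | zero => exact ⟨0, zero_mem _, 0, zero_mem _, 0, zero_mem _, 0, zero_mem _, 0, zero_mem _, by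
        rw [z0, z1, z2]; simp⟩
  | add a b _ _ ha hb =>
    obtain ⟨X, hX, F, hF, F', hF', Y, hY, Y', hY', rfl⟩ := ha
    obtain ⟨X2, hX2, F2, hF2, F2', hF2', Y2, hY2, Y2', hY2', rfl⟩ := hb
    refine ⟨X + X2, add_mem hX hX2, F + F2, add_mem hF hF2, F' + F2', add_mem hF' hF2',
      Y + Y2, add_mem hY hY2, Y' + Y2', add_mem hY' hY2', ?_⟩
    ext i j
    rcases i with i | i | i <;> rcases j with j | j | j <;>
      simp [big0, big1, big2, fromBlocks, fromCols] <;> ring
  | smul c a _ ha =>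
    obtain ⟨X, hX, F, hF, F', hF', Y, hY, Y', hY', rfl⟩ := ha
    refine ⟨c • X, Submodule.smul_mem _ _ hX, c • F, Submodule.smul_mem _ _ hF,
      star c • F', Submodule.smul_mem _ _ hF', c • Y, Submodule.smul_mem _ _ hY,
      star c • Y', Submodule.smul_mem _ _ hY', ?_⟩
    ext i j
    rcases i with i | i | i <;> rcases j with j | j | j <;>
      simp [big0, big1, big2, fromBlocks, fromCols]

theorem Pz_mul_Pm {p q : ℕ} {X : Matrix (Fin p) (Fin p) ℂ × Matrix (Fin q) (Fin q) ℂ}
    {F F' : Matrix (Fin p) (Fin q) ℂ} {Y Y' : Matrix (Fin p) (Fin p) ℂ} :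
    Pz p q * (big0 X + big1 F + (big1 F')ᴴ + big2 Y + (big2 Y')ᴴ) * Pm p q =
      big1 F * Pm p q := by
  ext i j
  rw [Pm, Matrix.mul_diagonal, Matrix.mul_diagonal, Pz, Matrix.diagonal_mul]
  rcases i with i | i | i <;> rcases j with j | j | j <;>
    simp [big0, big1, big2, fromBlocks, fromCols]

theorem Pp_mul_Pm {p q : ℕ} {X : Matrix (Fin p) (Fin p) ℂ × Matrix (Fin q) (Fin q) ℂ}
    {F F' : Matrix (Fin p) (Fin q) ℂ} {Y Y' : Matrix (Fin p) (Fin p) ℂ} :
    Pp p q * (big0 X + big1 F + (big1 F')ᴴ + big2 Y + (big2 Y')ᴴ) * Pm p q =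
      big2 Y * Pm p q := by
  ext i j
  rw [Pm, Matrix.mul_diagonal, Matrix.mul_diagonal, Pp, Matrix.diagonal_mul]
  rcases i with i | i | i <;> rcases j with j | j | j <;>
    simp [big0, big1, big2, fromBlocks, fromCols]

theorem P_sum (p q : ℕ) : Pp p q + Pz p q + Pm p q = 1 := by
  rw [Pp, Pz, Pm, Matrix.diagonal_add, Matrix.diagonal_add, ← Matrix.diagonal_one]
  congr 1
  funext i
  rcases i with i | i | i <;> simp

/-! ### The derivative of the period matrix -/

section deriv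
variable {n p q : ℕ}

/-- Normalisation: the component along `V_(-1)` is removed. -/
def Nn (W : Matrix (Fin n) (Fin p) ℂ) (e : Fin p → Fin n) :
    Matrix (Fin n) (Fin p) ℂ →ₗ[ℂ] Matrix (Fin n) (Fin p) ℂ where
  toFun M := M - W * M.submatrix e id
  map_add' A B := by
    rw [Matrix.submatrix_add]
    simp only [Pi.add_apply, Matrix.mul_add]
    abel
  map_smul' c A := by
    rw [Matrix.submatrix_smul, RingHom.id_apply, smul_sub]
    simp only [Pi.smul_apply, Matrix.mul_smul]

/-- The derivative of a normalised period matrix. -/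
theorem deriv_eq (x : Matrix (Fin n) (Fin n) ℂ) {g : Matrix (Fin n) (I p q) ℂ}
    {g' : Matrix (I p q) (Fin n) ℂ} (e1 : g' * g = 1) (e2 : g * g' = 1)
    (hxg : x * g = g * x0 p q) (W : Matrix (Fin n) (Fin p) ℂ) (hW : x * W = -W)
    (e : Fin p → Fin n) (he : W.submatrix e id = 1) (δ : Derivation ℚ ℂ ℂ)
    {X : Matrix (Fin p) (Fin p) ℂ × Matrix (Fin q) (Fin q) ℂ}
    {F F' : Matrix (Fin p) (Fin q) ℂ} {Y Y' : Matrix (Fin p) (Fin p) ℂ}
    (hz : g' * x.map δ * g = big0 X + big1 F + (big1 F')ᴴ + big2 Y + (big2 Y')ᴴ) :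
    W.map δ = Nn W e (g * (big1 (-F) + big2 ((-(1 / 2) : ℂ) • Y)) * g' * W) := by
  obtain ⟨U, hU⟩ : ∃ U, U = g' * W := ⟨_, rfl⟩
  obtain ⟨V, hV⟩ : ∃ V, V = g' * W.map δ := ⟨_, rfl⟩
  obtain ⟨z, hz'⟩ : ∃ z, z = g' * x.map δ * g := ⟨_, rfl⟩
  have hgU : g * U = W := by rw [hU, ← Matrix.mul_assoc, e2, Matrix.one_mul]
  have hgV : g * V = W.map δ := by rw [hV, ← Matrix.mul_assoc, e2, Matrix.one_mul]
  have hxg' : g' * x = x0 p q * g' := by
    calc g' * x = g' * (x * (g * g')) := by rw [e2, Matrix.mul_one]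
      _ = g' * (x * g) * g' := by simp only [Matrix.mul_assoc]
      _ = (g' * g) * x0 p q * g' := by rw [hxg]; simp only [Matrix.mul_assoc]
      _ = x0 p q * g' := by rw [e1, Matrix.one_mul]
  have hxU : x0 p q * U = -U := by
    rw [hU, ← Matrix.mul_assoc, ← hxg', Matrix.mul_assoc, hW, Matrix.mul_neg]
  -- the differentiated equation
  have hd : x.map δ * W + x * W.map δ = -W.map δ := by
    ext i j
    have h1 := congrArg δ (congrFun (congrFun hW i) j)
    rw [Matrix.mul_apply, map_sum, Matrix.neg_apply, map_neg] at h1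
    rw [Matrix.neg_apply, Matrix.map_apply, ← h1, Matrix.add_apply, Matrix.mul_apply,
      Matrix.mul_apply, ← Finset.sum_add_distrib]
    refine Finset.sum_congr rfl fun l _ => ?_
    rw [Derivation.leibniz, Matrix.map_apply, Matrix.map_apply, smul_eq_mul, smul_eq_mul]
    ring
  have hd' : z * U + x0 p q * V = -V := by
    have h1 := congrArg (fun M => g' * M) hd
    simp only [Matrix.mul_add, Matrix.mul_neg] at h1
    rw [← Matrix.mul_assoc g' x, hxg', Matrix.mul_assoc (x0 p q), ← hV] at h1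
    rw [← h1, hz', hU]
    congr 1
    calc g' * x.map δ * g * (g' * W) = g' * x.map δ * (g * g') * W := by
          simp only [Matrix.mul_assoc]
      _ = g' * (x.map δ * W) := by rw [e2, Matrix.mul_one, Matrix.mul_assoc]
  have hPmU : Pm p q * U = U := by
    rw [Pm_eq, Matrix.smul_mul, Matrix.sub_mul, Matrix.mul_assoc, hxU, Matrix.mul_neg, hxU]
    module
  have hPzV : Pz p q * V = -(big1 F * U) := by
    have h1 := congrArg (fun M => Pz p q * M) hd'
    simp only [Matrix.mul_add, Matrix.mul_neg] at h1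
    have h2 : Pz p q * (x0 p q * V) = 0 := by
      have : Pz p q * x0 p q = 0 := by
        rw [Pz_eq, Matrix.sub_mul, Matrix.one_mul, x0_cube, sub_self]
      rw [← Matrix.mul_assoc, this, Matrix.zero_mul]
    rw [h2, add_zero] at h1
    have h3 : Pz p q * (z * U) = big1 F * U := by
      conv_lhs => rw [← hPmU]
      rw [← Matrix.mul_assoc, ← Matrix.mul_assoc, hz', hz, Pz_mul_Pm, Matrix.mul_assoc, hPmU]
    rw [h3] at h1
    rw [h1, neg_neg]
  have hPpV : Pp p q * V = -((1 / 2 : ℂ) • (big2 (q := q) Y * U)) := by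
    have h1 := congrArg (fun M => Pp p q * M) hd'
    simp only [Matrix.mul_add, Matrix.mul_neg] at h1
    have h2 : Pp p q * (x0 p q * V) = Pp p q * V := by
      have : Pp p q * x0 p q = Pp p q := by
        rw [Pp_eq, smul_mul_assoc, Matrix.add_mul, x0_cube, add_comm]
      rw [← Matrix.mul_assoc, this]
    have h3 : Pp p q * (z * U) = big2 (q := q) Y * U := by
      conv_lhs => rw [← hPmU]
      rw [← Matrix.mul_assoc, ← Matrix.mul_assoc, hz', hz, Pp_mul_Pm, Matrix.mul_assoc, hPmU]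
    rw [h2, h3] at h1
    have h4 : big2 (q := q) Y * U = -((2 : ℂ) • (Pp p q * V)) := by
      rw [two_smul, neg_add]
      exact eq_sub_of_add_eq h1
    rw [h4, smul_neg, smul_smul]
    norm_num
  have hVdec : V = (big1 (-F) + big2 ((-(1 / 2) : ℂ) • Y)) * U + Pm p q * V := by
    have h1 : V = (Pp p q + Pz p q + Pm p q) * V := by rw [P_sum, Matrix.one_mul]
    have n1 : big1 (-F) = -big1 F := by
      ext i j
      rcases i with i | i | i <;> rcases j with j | j | j <;>
        simp [big1, fromBlocks, fromCols]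
    have n2 : big2 (q := q) ((-(1 / 2) : ℂ) • Y) = (-(1 / 2) : ℂ) • big2 Y :=
      (m2 p q).map_smul _ _
    conv_lhs => rw [h1]
    rw [Matrix.add_mul, Matrix.add_mul, hPzV, hPpV, n1, n2, Matrix.add_mul, Matrix.neg_mul,
      Matrix.smul_mul]
    congr 1
    module
  -- the part in `V_(-1)`
  obtain ⟨C, hC⟩ : ∃ C : Matrix (Fin p) (Fin p) ℂ, C = Matrix.of fun i j =>
      U (Sum.inr (Sum.inr i)) j := ⟨_, rfl⟩
  obtain ⟨D, hD⟩ : ∃ D : Matrix (Fin p) (Fin p) ℂ, D = Matrix.of fun i j =>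
      V (Sum.inr (Sum.inr i)) j := ⟨_, rfl⟩
  obtain ⟨Gm, hGm⟩ : ∃ Gm : Matrix (Fin p) (Fin p) ℂ, Gm = Matrix.of fun i j =>
      g (e i) (Sum.inr (Sum.inr j)) := ⟨_, rfl⟩
  have hU1 : ∀ i j, U (Sum.inl i) j = 0 := by
    intro i j
    rw [← hPmU, Pm, Matrix.diagonal_mul]
    simp
  have hU2 : ∀ i j, U (Sum.inr (Sum.inl i)) j = 0 := by
    intro i j
    rw [← hPmU, Pm, Matrix.diagonal_mul]
    simp
  have hGC : Gm * C = 1 := by
    rw [← he, ← hgU]
    ext i j
    rw [Matrix.mul_apply, Matrix.submatrix_apply, Matrix.mul_apply, Fintype.sum_sum_type,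
      Fintype.sum_sum_type]
    simp only [id, hU1, hU2, mul_zero, Finset.sum_const_zero, zero_add, hGm, hC,
      Matrix.of_apply]
  have hCG : C * Gm = 1 := mul_eq_one_comm.1 hGC
  have hPmV : Pm p q * V = U * (Gm * D) := by
    ext i j
    rw [Pm, Matrix.diagonal_mul, Matrix.mul_apply]
    rcases i with i | i | i
    · simp [hU1]
    · simp [hU2]
    · have h1 : C * (Gm * D) = D := by rw [← Matrix.mul_assoc, hCG, Matrix.one_mul]
      have h2 := congrFun (congrFun h1 i) j
      rw [Matrix.mul_apply] at h2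
      simp only [hC, Matrix.of_apply] at h2
      rw [h2, hD]
      simp
  have hker : Nn W e (g * (Pm p q * V)) = 0 := by
    rw [hPmV, ← Matrix.mul_assoc, hgU]
    change W * (Gm * D) - W * (W * (Gm * D)).submatrix e id = 0
    have h1 : (W * (Gm * D)).submatrix e id = W.submatrix e id * (Gm * D) := by
      ext i j
      simp [Matrix.mul_apply]
    rw [h1, he, Matrix.one_mul, sub_self]
  have hself : Nn W e (W.map δ) = W.map δ := by
    change W.map δ - W * (W.map δ).submatrix e id = W.map δ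
    have h1 : (W.map δ).submatrix e id = 0 := by
      ext i j
      have h2 := congrFun (congrFun he i) j
      rw [Matrix.submatrix_apply] at h2
      rw [Matrix.submatrix_apply, Matrix.map_apply, h2, Matrix.one_apply]
      split_ifs <;> simp
    rw [h1, Matrix.mul_zero, sub_zero]
  rw [← hself, ← hgV, hVdec, Matrix.mul_add, map_add, hker, add_zero, hU]
  congr 1
  simp only [Matrix.mul_assoc]

/-- The number of independent periods is at most the dimension of the positive part. -/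
theorem card_le (x : Matrix (Fin n) (Fin n) ℂ) {g : Matrix (Fin n) (I p q) ℂ}
    {g' : Matrix (I p q) (Fin n) ℂ} (e1 : g' * g = 1) (e2 : g * g' = 1)
    (hxg : x * g = g * x0 p q) (G : Gr p q)
    (hG : ∀ δ : Derivation ℚ ℂ ℂ, g' * x.map δ * g ∈ G.alg)
    (W : Matrix (Fin n) (Fin p) ℂ) (hW : x * W = -W)
    (e : Fin p → Fin n) (he : W.submatrix e id = 1) (s : Finset (Fin p × Fin n))
    (hs : AlgebraicIndependent ℚ (fun a : s => W a.1.2 a.1.1)) :
    s.card ≤ finrank ℂ G.h1 + finrank ℂ G.h2 := by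
  classical
  let b1 : Matrix (Fin p) (Fin q) ℂ →ₗ[ℂ] Matrix (I p q) (I p q) ℂ :=
    { toFun := big1
      map_add' := fun F F' => by
        ext i j
        rcases i with i | i | i <;> rcases j with j | j | j <;>
          simp [big1, fromBlocks, fromCols] <;> ring
      map_smul' := fun c F => by
        ext i j
        rcases i with i | i | i <;> rcases j with j | j | j <;>
          simp [big1, fromBlocks, fromCols] }
  let L : Matrix (I p q) (I p q) ℂ →ₗ[ℂ] Matrix (Fin n) (Fin p) ℂ :=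
    { toFun := fun M => g * M * g' * W
      map_add' := fun A B => by simp only [Matrix.mul_add, Matrix.add_mul]
      map_smul' := fun c A => by
        simp only [Matrix.mul_smul, Matrix.smul_mul, RingHom.id_apply] }
  let Φ : (G.h1 × G.h2) →ₗ[ℂ] Matrix (Fin n) (Fin p) ℂ :=
    (Nn W e) ∘ₗ L ∘ₗ ((b1 ∘ₗ G.h1.subtype).coprod (m2 p q ∘ₗ G.h2.subtype))
  have hΦ : ∀ δ : Derivation ℚ ℂ ℂ, W.map δ ∈ LinearMap.range Φ := by
    intro δ
    obtain ⟨X, hX, F, hF, F', hF', Y, hY, Y', hY', hz⟩ := alg_dec G (hG δ)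
    refine ⟨(⟨-F, neg_mem hF⟩, ⟨(-(1 / 2) : ℂ) • Y, Submodule.smul_mem _ _ hY⟩), ?_⟩
    rw [deriv_eq x e1 e2 hxg W hW e he δ hz]
    rfl
  choose δ hδ using fun j : s =>
    W437.HD.exists_derivation hs (fun i : s => if i = j then (1 : ℂ) else 0)
  let f : s → LinearMap.range Φ := fun j => ⟨W.map (δ j), hΦ (δ j)⟩
  have hli : LinearIndependent ℂ f := by
    rw [Fintype.linearIndependent_iff]
    intro c hc j
    have h1 := congrFun (congrFun (congrArg Subtype.val hc) j.1.2) j.1.1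
    simp only [AddSubmonoidClass.coe_finsetSum, Submodule.coe_smul, Matrix.sum_apply,
      Matrix.smul_apply, smul_eq_mul, f, Matrix.map_apply] at h1
    rw [Finset.sum_eq_single j] at h1
    · rw [hδ j j, if_pos rfl, mul_one] at h1
      exact h1
    · intro i _ hi
      rw [hδ i j, if_neg (Ne.symm hi), mul_zero]
    · intro h
      exact absurd (Finset.mem_univ _) h
  have h1 := hli.fintype_card_le_finrank
  rw [Fintype.card_coe] at h1
  have h2 : finrank ℂ (LinearMap.range Φ) ≤ finrank ℂ (G.h1 × G.h2) :=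
    LinearMap.finrank_range_le Φ
  rw [Module.finrank_prod] at h2
  exact h1.trans h2

end deriv

end

end Pool.Agent.TH119.S2
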